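import Pool.Agent.H18.XZ.TC

/-!
Row NUS of the board exz: numbers.
-/

set_option autoImplicit false

namespace Pool.Agent.H95.XZ

open Pool.Agent.H18.XZ

theorem two_pow_gap {a h E : ℕ} (ha : 100 ≤ a) (hh : 5 * a ≤ h) (hE : E ≤ 6 * a) :
    2 ^ a + E ≤ 2 ^ h := by
  have h1 : 2 ^ (5 * a) ≤ 2 ^ h := Nat.pow_le_pow_right (by norm_num) hh
  have h2 : a + 1 ≤ 2 ^ a := Nat.lt_two_pow_self
  have h3 : (2 : ℕ) ^ (5 * a) = 2 ^ a * 2 ^ (4 * a) := by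
    rw [← pow_add]
    congr 1
    ring
  have h4 : 4 * a + 1 ≤ 2 ^ (4 * a) := Nat.lt_two_pow_self
  have h5 : 2 ^ a * (4 * a + 1) ≤ 2 ^ a * 2 ^ (4 * a) := Nat.mul_le_mul_left _ h4
  have h6 : 2 ^ a * (4 * a + 1) = 2 ^ a * (4 * a) + 2 ^ a := by ring
  have h7 : 101 * (4 * a) ≤ 2 ^ a * (4 * a) := Nat.mul_le_mul_right _ (by omega)
  omega

theorem pf_NUS : T_NUS := by
  refine ⟨10000, ?_⟩
  intro n hn
  obtain ⟨a, ha⟩ : ∃ a : ℕ, a = n / 100 := ⟨_, rfl⟩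
  obtain ⟨e, he⟩ : ∃ e : ℕ, e = n / 64 := ⟨_, rfl⟩
  obtain ⟨f, hf⟩ : ∃ f : ℕ, f = n / 36 := ⟨_, rfl⟩
  obtain ⟨g, hg⟩ : ∃ g : ℕ, g = n / 32 := ⟨_, rfl⟩
  obtain ⟨h, hh⟩ : ∃ h : ℕ, h = n / 20 := ⟨_, rfl⟩
  have ha1 : 100 ≤ a := by omega
  have hef : e + a + 9 ≤ f := by omega
  have heg : e + a + 9 ≤ g := by omega
  have hea : e ≤ 2 * a := by omega
  have hha : 5 * a ≤ h := by omega
  have hgap : 2 ^ a + (2 * e + a + 9) ≤ 2 ^ h := two_pow_gap ha1 hha (by omega)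
  have hcube : 2 * e + a + 9 ≤ a ^ 3 := by
    have h1 : a ^ 3 = a * a * a := by ring
    have h2 : 100 * 100 * a ≤ a * a * a :=
      Nat.mul_le_mul_right _ (Nat.mul_le_mul ha1 ha1)
    omega
  rw [← ha, ← he, ← hf, ← hg, ← hh]
  obtain ⟨x, hx⟩ : ∃ x : ℝ, x = (1 / 2) ^ e := ⟨_, rfl⟩
  obtain ⟨y, hy⟩ : ∃ y : ℝ, y = (1 / 2) ^ f := ⟨_, rfl⟩
  obtain ⟨R, hR⟩ : ∃ R : ℝ, R = (1 / 2) ^ a := ⟨_, rfl⟩
  obtain ⟨u, hu⟩ : ∃ u : ℝ, u = 2 ^ 2 ^ a * (1 / 2) ^ 2 ^ h := ⟨_, rfl⟩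
  obtain ⟨v, hv⟩ : ∃ v : ℝ, v = (1 / 2) ^ a ^ 3 := ⟨_, rfl⟩
  obtain ⟨b, hb⟩ : ∃ b : ℝ, b = 1 / ((2 ^ g : ℕ) : ℝ) := ⟨_, rfl⟩
  have hx0 : 0 < x := by rw [hx]; positivity
  have hx1 : x ≤ 1 := by rw [hx]; exact pow_le_one₀ (by norm_num) (by norm_num)
  have hy0 : 0 < y := by rw [hy]; positivity
  have hR0 : 0 < R := by rw [hR]; positivity
  have hR1 : R ≤ 1 := by rw [hR]; exact pow_le_one₀ (by norm_num) (by norm_num)
  have hb0 : 0 < b := by rw [hb]; positivity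
  have hu0 : 0 < u := by rw [hu]; positivity
  have hv0 : 0 < v := by rw [hv]; positivity
  have e1 : (1 / 2 : ℝ) ^ (e + a + 9) = x * R / 512 := by
    rw [hx, hR, pow_add, pow_add]
    norm_num
    ring
  have e2 : (1 / 2 : ℝ) ^ (2 * e + a + 9) = x ^ 2 * R / 512 := by
    rw [hx, hR, pow_add, pow_add, mul_comm 2 e, pow_mul]
    norm_num
    ring
  have hy1 : y ≤ x * R / 512 := by
    rw [hy, ← e1]
    exact pow_le_pow_of_le_one (by norm_num) (by norm_num) hef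
  have hb1 : b ≤ x * R / 512 := by
    have h1 : b = (1 / 2) ^ g := by
      rw [hb]
      push_cast
      rw [one_div_pow]
    rw [h1, ← e1]
    exact pow_le_pow_of_le_one (by norm_num) (by norm_num) heg
  have hu1 : u ≤ x ^ 2 * R / 512 := by
    have h1 : (1 / 2 : ℝ) ^ 2 ^ h ≤ (1 / 2) ^ (2 ^ a + (2 * e + a + 9)) :=
      pow_le_pow_of_le_one (by norm_num) (by norm_num) hgap
    have h2 : (2 : ℝ) ^ 2 ^ a * (1 / 2) ^ (2 ^ a) = 1 := by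
      rw [← mul_pow]
      norm_num
    calc u ≤ 2 ^ 2 ^ a * (1 / 2) ^ (2 ^ a + (2 * e + a + 9)) := by
          rw [hu]
          exact mul_le_mul_of_nonneg_left h1 (by positivity)
      _ = (2 ^ 2 ^ a * (1 / 2) ^ (2 ^ a)) * (1 / 2) ^ (2 * e + a + 9) := by
          rw [pow_add (1 / 2 : ℝ) (2 ^ a) (2 * e + a + 9), mul_assoc]
      _ = x ^ 2 * R / 512 := by rw [h2, one_mul, e2]
  have hv1 : v ≤ x ^ 2 * R / 512 := by
    rw [hv, ← e2]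
    exact pow_le_pow_of_le_one (by norm_num) (by norm_num) hcube
  rw [← hx, ← hy, ← hR, ← hu, ← hv, ← hb]
  have g1 : 16 / x ^ 2 * y ^ 2 ≤ R / 32 := by
    have h1 : y ^ 2 ≤ (x * R / 512) ^ 2 := pow_le_pow_left₀ hy0.le hy1 2
    calc 16 / x ^ 2 * y ^ 2 ≤ 16 / x ^ 2 * (x * R / 512) ^ 2 :=
          mul_le_mul_of_nonneg_left h1 (by positivity)
      _ = 16 * R ^ 2 / 262144 := by
          field_simp
          norm_num
      _ ≤ R / 32 := by nlinarith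
  have g2 : 2 / x * (b + 2 * y) ≤ 6 * R / 512 := by
    calc 2 / x * (b + 2 * y) ≤ 2 / x * (x * R / 512 + 2 * (x * R / 512)) := by
          gcongr
      _ = 6 * R / 512 := by
          field_simp
          norm_num
  have g3 : (4 / x ^ 2 + 2 / x) * u ≤ 6 * R / 512 := by
    calc (4 / x ^ 2 + 2 / x) * u ≤ (4 / x ^ 2 + 2 / x) * (x ^ 2 * R / 512) :=
          mul_le_mul_of_nonneg_left hu1 (by positivity)
      _ = (4 + 2 * x) * R / 512 := by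
          field_simp
      _ ≤ 6 * R / 512 := by nlinarith
  have g4 : (36 / x ^ 2 + 4 / x) * v ≤ 40 * R / 512 := by
    calc (36 / x ^ 2 + 4 / x) * v ≤ (36 / x ^ 2 + 4 / x) * (x ^ 2 * R / 512) :=
          mul_le_mul_of_nonneg_left hv1 (by positivity)
      _ = (36 + 4 * x) * R / 512 := by
          field_simp
      _ ≤ 40 * R / 512 := by nlinarith
  nlinarith

end Pool.Agent.H95.XZ
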